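import Pool.Agent.H66.L.T64922ed1.X183.QP.Main

/-!
# Affine tori of diffeomorphisms: definitions
-/

set_option autoImplicit false

open scoped Manifold ContDiff Topology
open Set

universe u

namespace Pool.Agent.X183.AT

open Pool.Agent.H718R2.G Pool.Agent.TH80.OMS
open Pool.Agent.X183.QP (mv)
open Pool.Agent.TH290.CL (IsFlow)
open Pool.Agent.Y504.CO (Rec)

/-- times -/
abbrev W (k : ℕ) := Fin k → ℝ

/-- extension by zero -/
def ex {k : ℕ} (w : W k) : ℕ → ℝ := fun i => if h : i < k then w ⟨i, h⟩ else 0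

/-- `y` moved by the flows `ψ 0, …, ψ (k - 1)` for the times `w 0, …, w (k - 1)` -/
def act {N : Type*} (ψ : ℕ → ℝ → N → N) {k : ℕ} (w : W k) (y : N) : N := mv ψ (ex w) k y

/-- `L` is invariant under the flows `ψ 0, …, ψ (k - 1)`, which commute with each other on `L`, and
under `f`, which is affine on `L`: `f (act w y) = act (A w) (f y)`. -/
structure Aff {N : Type*} (k : ℕ) (ψ : ℕ → ℝ → N → N) (A : W k →ₗ[ℝ] W k) (f : N → N)
    (L : Set N) : Prop where
  inv : ∀ i < k, ∀ t, ∀ y ∈ L, ψ i t y ∈ L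
  comm : ∀ i < k, ∀ j < k, ∀ s t, ∀ y ∈ L, ψ i s (ψ j t y) = ψ j t (ψ i s y)
  map : ∀ y ∈ L, f y ∈ L
  aff : ∀ w : W k, ∀ y ∈ L, f (act ψ w y) = act ψ (A w) (f y)

/-- `L` is a compact orbit of the smooth flows `ψ 0, …, ψ (k - 1)` of `N`, which commute on `L`,
periodic under `F` (`F^m(L) ⊆ L` and `F^i(L)` does not meet `L` for `0 < i < m`), and the return map
`F^m` is affine on `L` with linear part `A`: `F^m (act ψ w y) = act ψ (A w) (F^m y)`. -/
structure AffTorus (n : ℕ) {N : Type u} [TopologicalSpace N] [ChartedSpace (V n) N] (F : N → N)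
    (k m : ℕ) (ψ : ℕ → ℝ → N → N) (A : W k →ₗ[ℝ] W k) (L : Set N) : Prop where
  flow : ∀ i, IsFlow n N (ψ i)
  compact : IsCompact L
  nonempty : L.Nonempty
  orbit : ∀ y ∈ L, ∀ z ∈ L, ∃ w : W k, act ψ w y = z
  pos : 1 ≤ m
  disj : ∀ i, 1 ≤ i → i < m → Disjoint (F^[i] '' L) L
  aff : Aff k ψ A F^[m] L

/-- `L` is a distal affine torus of `F`: an affine torus with more than one point such that
`A^q - 1` is nilpotent for some `q ≥ 1`, that is, all eigenvalues of the linear part `A` of the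
return map are roots of unity. -/
def IsDistalTorus (n : ℕ) (N : Type u) [TopologicalSpace N] [ChartedSpace (V n) N] (F : N → N)
    (L : Set N) : Prop :=
  ∃ (k m q : ℕ) (ψ : ℕ → ℝ → N → N) (A : W k →ₗ[ℝ] W k), AffTorus n F k m ψ A L ∧
    L.Nontrivial ∧ 1 ≤ q ∧ IsNilpotent (A ^ q - 1)

/-- the points on distal affine tori of `F` -/
def DistalPts (n : ℕ) {N : Type u} [TopologicalSpace N] [ChartedSpace (V n) N] (F : N → N) :
    Set N :=
  {x | ∃ L : Set N, IsDistalTorus n N F L ∧ x ∈ L}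

/-- `C` is a nonstationary periodic orbit of a smooth flow of `N`. -/
def ClosedCurve (n : ℕ) (N : Type u) [TopologicalSpace N] [ChartedSpace (V n) N] (C : Set N) :
    Prop :=
  ∃ ψ : ℝ → N → N, IsFlow n N ψ ∧ ∃ x : N, (∃ T : ℝ, 0 < T ∧ ψ T x = x) ∧ (∃ t, ψ t x ≠ x) ∧
    C = range fun t => ψ t x

/-- `C` is periodic under `F`: `F^m(C) ⊆ C` for some `m ≥ 1`, and `C` does not meet `F^i(C)`,
`1 ≤ i < m`. -/
def PerSet {N : Type*} (F : N → N) (C : Set N) : Prop :=
  ∃ m : ℕ, 1 ≤ m ∧ (∀ y ∈ C, F^[m] y ∈ C) ∧ ∀ i, 1 ≤ i → i < m → Disjoint (F^[i] '' C) C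

/-- the points on periodic smooth closed curves of `F` -/
def ClosedPts (n : ℕ) {N : Type u} [TopologicalSpace N] [ChartedSpace (V n) N] (F : N → N) :
    Set N :=
  {x | ∃ C : Set N, ClosedCurve n N C ∧ PerSet F C ∧ x ∈ C}

/-- `y` is a critical point of `h`. -/
def Crit (n : ℕ) {N : Type u} [TopologicalSpace N] [ChartedSpace (V n) N] (h : N → ℝ) (y : N) :
    Prop :=
  mfderiv (𝓡 n) 𝓘(ℝ, ℝ) h y = 0

/-- the points whose whole orbit under `G` consists of critical points of `h` -/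
def CritOrb (n : ℕ) {N : Type u} [TopologicalSpace N] [ChartedSpace (V n) N] {r : ℕ∞}
    (G : DiffM n N r) (h : N → ℝ) : Set N :=
  {x | ∀ k : ℕ, Crit n h (G^[k] x) ∧ Crit n h (G.symm^[k] x)}

/-- `G` does not decrease some smooth function `h`, and all recurrent points of `G` whose whole
orbit consists of critical points of `h`, with at most countably many exceptions, are periodic, or
lie on periodic smooth closed curves or on distal affine tori. -/
def DistalRec (n : ℕ) (N : Type u) [TopologicalSpace N] [ChartedSpace (V n) N] (r : ℕ∞)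
    (G : DiffM n N r) : Prop :=
  ∃ h : N → ℝ, ContMDiff (𝓡 n) 𝓘(ℝ, ℝ) ∞ h ∧ (∀ x, h x ≤ h (G x)) ∧
    ((CritOrb n G h ∩ Rec G) \ (Per G ∪ ClosedPts n G ∪ DistalPts n G)).Countable

end Pool.Agent.X183.AT
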