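import Mathlib
import Pool.Agent.H66.L.T64922ed1.X183.AT.Defs

/-!
# Linear algebra for affine maps of tori
-/

set_option autoImplicit false

open Polynomial

namespace Pool.Agent.X183.AT

variable {k : ℕ}

/-- the sum of the powers `A^0, …, A^(j-1)` -/
noncomputable def S (A : W k →ₗ[ℝ] W k) (j : ℕ) : W k →ₗ[ℝ] W k := ∑ i ∈ Finset.range j, A ^ i

theorem S_succ (A : W k →ₗ[ℝ] W k) (j : ℕ) : S A (j + 1) = A * S A j + 1 := by
  unfold S
  rw [geom_sum_succ]

theorem S_fix (A : W k →ₗ[ℝ] W k) (j : ℕ) (u : W k) : (A ^ j) u - u = A (S A j u) - S A j u := by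
  have h := mul_geom_sum A j
  have h1 : (A - 1) * S A j = A ^ j - 1 := h
  have h2 := congrArg (fun B : W k →ₗ[ℝ] W k => B u) h1
  simpa [sub_mul] using h2.symm

theorem exists_T (A : W k →ₗ[ℝ] W k) (p : ℕ) (l : W k) :
    ∃ c : W k, A c - c = S A p l - (p : ℝ) • l := by
  refine ⟨∑ j ∈ Finset.range p, S A j l, ?_⟩
  rw [map_sum, ← Finset.sum_sub_distrib]
  have h1 : ∀ j ∈ Finset.range p, A (S A j l) - S A j l = (A ^ j) l - l := fun j _ =>
    (S_fix A j l).symm
  rw [Finset.sum_congr rfl h1, Finset.sum_sub_distrib]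
  have h2 : ∑ j ∈ Finset.range p, (A ^ j) l = S A p l := by simp [S]
  rw [h2, Finset.sum_const, Finset.card_range, ← Nat.cast_smul_eq_nsmul ℝ]

theorem bad_finite (A : W k →ₗ[ℝ] W k) :
    {p : ℕ | p.Prime ∧ ¬ Function.Surjective (S A p)}.Finite := by
  classical
  set χ : ℝ[X] := LinearMap.charpoly A with hχ
  have hmon : χ.Monic := LinearMap.charpoly_monic A
  have hfin : (χ.rootSet ℂ).Finite := χ.rootSet_finite ℂ
  refine (hfin.image orderOf).subset ?_
  rintro p ⟨hp, hs⟩
  have hinj : ¬ Function.Injective (S A p) := fun h => hs (LinearMap.injective_iff_surjective.1 h)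
  have hker : ∃ w, w ≠ 0 ∧ S A p w = 0 := by
    rw [← LinearMap.ker_eq_bot, Submodule.eq_bot_iff] at hinj
    push Not at hinj
    obtain ⟨w, hw, hw0⟩ := hinj
    exact ⟨w, hw0, LinearMap.mem_ker.1 hw⟩
  obtain ⟨w, hw0, hw⟩ := hker
  set P : ℝ[X] := ∑ i ∈ Finset.range p, X ^ i with hP
  have hPA : aeval A P = S A p := by
    rw [hP, map_sum]
    simp [S]
  have hnc : ¬ IsCoprime P χ := by
    rintro ⟨a, b, hab⟩
    have h1 := congrArg (fun q : ℝ[X] => aeval A q w) hab
    simp only [map_add, map_mul, map_one] at h1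
    rw [hPA, hχ, LinearMap.aeval_self_charpoly] at h1
    simp [hw] at h1
    exact hw0 h1.symm
  rw [isCoprime_iff_aeval_ne_zero_of_isAlgClosed ℝ ℂ] at hnc
  push Not at hnc
  obtain ⟨z, hz1, hz2⟩ := hnc
  refine ⟨z, (mem_rootSet_of_ne hmon.ne_zero).2 hz2, ?_⟩
  have hz1' : ∑ i ∈ Finset.range p, z ^ i = 0 := by
    rw [hP, map_sum] at hz1
    simpa using hz1
  have hzp : z ^ p = 1 := by
    have := mul_geom_sum z p
    rw [hz1', mul_zero] at this
    exact (sub_eq_zero.1 this.symm)
  have hz : z ≠ 1 := by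
    rintro rfl
    simp at hz1'
    exact hp.ne_zero hz1'
  have := Fact.mk hp
  exact orderOf_eq_prime hzp hz

theorem good_prime (A : W k →ₗ[ℝ] W k) (R : ℝ) :
    ∃ p : ℕ, 1 ≤ p ∧ R ≤ p ∧ Function.Surjective (S A p) := by
  have h1 : ({p : ℕ | p.Prime} \ {p : ℕ | p.Prime ∧ ¬ Function.Surjective (S A p)}).Infinite :=
    Nat.infinite_setOfPred_prime.sdiff (bad_finite A)
  obtain ⟨M, hM⟩ := exists_nat_ge R
  obtain ⟨p, ⟨hp1, hp2⟩, hp3⟩ := h1.exists_gt M
  refine ⟨p, hp1.one_lt.le, hM.trans (by exact_mod_cast hp3.le), ?_⟩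
  by_contra hcon
  exact hp2 ⟨hp1, hcon⟩

/-- the equation for the translation part: `(A^p - 1) u + S_p (l / p) = l` is solvable -/
theorem solve (A : W k →ₗ[ℝ] W k) {p : ℕ} (hp : 1 ≤ p) (hS : Function.Surjective (S A p))
    (l : W k) : ∃ u : W k, (A ^ p) u + S A p ((p : ℝ)⁻¹ • l) = u + l := by
  obtain ⟨c, hc⟩ := exists_T A p l
  obtain ⟨u, hu⟩ := hS (-((p : ℝ)⁻¹ • c))
  have hp0 : (p : ℝ) ≠ 0 := by exact_mod_cast (by omega : p ≠ 0)
  refine ⟨u, ?_⟩
  have h1 := S_fix A p u
  rw [hu, map_neg, map_smul] at h1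
  have h2 : (A ^ p) u - u = -((p : ℝ)⁻¹ • (A c - c)) := by
    rw [h1, smul_sub]; abel
  rw [hc, smul_sub, smul_smul, inv_mul_cancel₀ hp0, one_smul] at h2
  rw [map_smul]
  have h3 : (A ^ p) u = u + -((p : ℝ)⁻¹ • S A p l - l) := by
    rw [← h2]; abel
  rw [h3]
  abel

/-- a complex root of the characteristic polynomial gives a real quadratic relation -/
theorem quad_of_root (A : W k →ₗ[ℝ] W k) {μ : ℂ}
    (h : ((LinearMap.charpoly A).map (algebraMap ℝ ℂ)).IsRoot μ) :
    ∃ w : W k, w ≠ 0 ∧ A (A w) - (2 * μ.re) • A w + (μ.re ^ 2 + μ.im ^ 2) • w = 0 := by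
  set M : Matrix (Fin k) (Fin k) ℝ := LinearMap.toMatrix' A with hM
  have hMA : ∀ w : W k, M.mulVec w = A w := fun w => LinearMap.toMatrix'_mulVec A w
  have h1 : LinearMap.charpoly A = M.charpoly := by
    rw [hM]
    exact (LinearMap.charpoly_toMatrix A (Pi.basisFun ℝ (Fin k))).symm
  rw [h1, ← Matrix.charpoly_map] at h
  have h2 : Module.End.HasEigenvalue (Matrix.toLin' (M.map (algebraMap ℝ ℂ))) μ := by
    rw [Module.End.hasEigenvalue_iff_isRoot_charpoly, Matrix.charpoly_toLin']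
    exact h
  obtain ⟨z, hz⟩ := h2.exists_hasEigenvector
  have hz1 : (M.map (algebraMap ℝ ℂ)).mulVec z = μ • z := by
    have := hz.apply_eq_smul
    rwa [Matrix.toLin'_apply] at this
  set a : W k := fun i => (z i).re with ha
  set b : W k := fun i => (z i).im with hb
  have hAa : A a = μ.re • a - μ.im • b := by
    rw [← hMA]
    funext i
    have := congrArg (fun v : Fin k → ℂ => (v i).re) hz1
    simp only [Matrix.mulVec, dotProduct, Complex.re_sum, Pi.smul_apply, smul_eq_mul,
      Complex.mul_re, Matrix.map_apply, Complex.coe_algebraMap, Complex.ofReal_re,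
      Complex.ofReal_im, zero_mul, sub_zero] at this
    simpa [Matrix.mulVec, dotProduct, ha, hb] using this
  have hAb : A b = μ.im • a + μ.re • b := by
    rw [← hMA]
    funext i
    have := congrArg (fun v : Fin k → ℂ => (v i).im) hz1
    simp only [Matrix.mulVec, dotProduct, Complex.im_sum, Pi.smul_apply, smul_eq_mul,
      Complex.mul_im, Matrix.map_apply, Complex.coe_algebraMap, Complex.ofReal_re,
      Complex.ofReal_im, zero_mul, add_zero] at this
    have h3 : ∑ x, M i x * (z x).im = μ.re * (z i).im + μ.im * (z i).re := this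
    show ∑ x, M i x * b x = (μ.im • a + μ.re • b) i
    simp only [Pi.add_apply, Pi.smul_apply, smul_eq_mul, ha, hb]
    rw [h3]; ring
  have hq : ∀ w : W k, (∃ w' : W k, (A w = μ.re • w - μ.im • w' ∧ A w' = μ.im • w + μ.re • w') ∨
      (A w = μ.im • w' + μ.re • w ∧ A w' = μ.re • w' - μ.im • w)) →
      A (A w) - (2 * μ.re) • A w + (μ.re ^ 2 + μ.im ^ 2) • w = 0 := by
    rintro w ⟨w', ⟨h1, h2⟩ | ⟨h1, h2⟩⟩
    · rw [h1, map_sub, map_smul, map_smul, h1, h2]
      module
    · rw [h1, map_add, map_smul, map_smul, h1, h2]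
      module
  by_cases ha0 : a = 0
  · have hb0 : b ≠ 0 := by
      intro hb0
      apply hz.2
      funext i
      apply Complex.ext
      · exact congrFun ha0 i
      · exact congrFun hb0 i
    exact ⟨b, hb0, hq b ⟨a, Or.inr ⟨hAb, hAa⟩⟩⟩
  · exact ⟨a, ha0, hq a ⟨b, Or.inl ⟨hAa, hAb⟩⟩⟩

/-- a map without eigenvalues of modulus one satisfies no such relation -/
theorem no_quad {E : Type*} [AddCommGroup E] [Module ℝ E] [Module.Finite ℝ E] [Module.Free ℝ E]
    (D : E →ₗ[ℝ] E)
    (hD : ∀ μ : ℂ, ((LinearMap.charpoly D).map (algebraMap ℝ ℂ)).IsRoot μ → ‖μ‖ ≠ 1) {x y : ℝ}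
    (hxy : x ^ 2 + y ^ 2 = 1) {v : E} (hv : D (D v) - (2 * x) • D v + (x ^ 2 + y ^ 2) • v = 0) :
    v = 0 := by
  set q : ℝ[X] := X ^ 2 - C (2 * x) * X + C (x ^ 2 + y ^ 2) with hq
  have hqD : aeval D q v = 0 := by
    rw [← hv, hq]
    simp [pow_two, Module.End.mul_apply, Algebra.algebraMap_eq_smul_one]
    module
  have hcop : IsCoprime q (LinearMap.charpoly D) := by
    rw [isCoprime_iff_aeval_ne_zero_of_isAlgClosed ℝ ℂ]
    intro ν
    by_cases h : aeval ν q = 0
    · right
      intro h2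
      refine hD ν ?_ ?_
      · rw [IsRoot, eval_map_algebraMap]
        exact h2
      · rw [hq] at h
        simp only [map_add, map_sub, map_mul, map_pow, aeval_X, aeval_C,
          Complex.coe_algebraMap] at h
        have h3 : (ν - x) ^ 2 = (Complex.I * y) ^ 2 := by
          have : Complex.I ^ 2 = -1 := Complex.I_sq
          push_cast at h
          linear_combination h + (-(y : ℂ) ^ 2) * this
        have h4 : ‖ν‖ ^ 2 = 1 := by
          rw [← Complex.normSq_eq_norm_sq]
          rcases sq_eq_sq_iff_eq_or_eq_neg.1 h3 with h5 | h5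
          · have : ν = x + Complex.I * y := by linear_combination h5
            rw [this, Complex.normSq_apply]
            simp
            nlinarith
          · have : ν = x - Complex.I * y := by linear_combination h5
            rw [this, Complex.normSq_apply]
            simp
            nlinarith
        nlinarith [norm_nonneg ν]
    · exact Or.inl h
  obtain ⟨a, b, hab⟩ := hcop
  have h1 := congrArg (fun q : ℝ[X] => aeval D q v) hab
  simp only [map_add, map_mul, map_one, LinearMap.aeval_self_charpoly] at h1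
  simp [hqD] at h1
  exact h1.symm

end Pool.Agent.X183.AT
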