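import Pool.Agent.H66.L.T64922ed1.X183.QP.Tor
import Pool.Agent.H66.L.T64922ed1.X183.AT.Alg

/-!
# Periodic tori with an affine return map: perturbation
-/

set_option autoImplicit false
set_option linter.unusedSectionVars false

open scoped Manifold ContDiff Topology
open Filter Set Metric

universe u

namespace Pool.Agent.X183.AT

open Pool.Agent.H718R2.G Pool.Agent.TH290.CL Pool.Agent.TH80.CLX Pool.Agent.TH80.OMS
open Pool.Agent.X183.QP

section alg

variable {N : Type*} {k : ℕ} {ψ : ℕ → ℝ → N → N} {A : W k →ₗ[ℝ] W k} {f : N → N} {L : Set N}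
  (h : Aff k ψ A f L)

include h

theorem Aff.toComm : Comm k ψ (fun y => y) L :=
  ⟨h.inv, h.comm, fun _ hy => hy, fun _ _ _ _ _ => rfl⟩

theorem act_mem (w : W k) {y : N} (hy : y ∈ L) : act ψ w y ∈ L := mv_mem h.toComm _ le_rfl hy

theorem act_add (hψ : ∀ i s t y, ψ i (s + t) y = ψ i s (ψ i t y)) (w w' : W k) {y : N}
    (hy : y ∈ L) : act ψ (w + w') y = act ψ w (act ψ w' y) := by
  show mv ψ (ex (w + w')) k y = mv ψ (ex w) k (mv ψ (ex w') k y)
  rw [← mv_add h.toComm hψ (ex w) (ex w') le_rfl hy]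
  refine mv_congr ψ (fun i hi => ?_) y
  simp [ex, hi]

theorem act_comm (w w' : W k) {y : N} (hy : y ∈ L) :
    act ψ w (act ψ w' y) = act ψ w' (act ψ w y) := mv_mv h.toComm _ _ le_rfl le_rfl hy

omit h in
theorem act_zero (h0 : ∀ i y, ψ i 0 y = y) (y : N) : act ψ (0 : W k) y = y := by
  show mv ψ (ex 0) k y = y
  rw [mv_congr ψ (v' := fun _ => 0) (fun i hi => by simp [ex, hi]) y, mv_zero h0]

theorem act_neg (h0 : ∀ i y, ψ i 0 y = y) (hψ : ∀ i s t y, ψ i (s + t) y = ψ i s (ψ i t y))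
    (w : W k) {y : N} (hy : y ∈ L) : act ψ (-w) (act ψ w y) = y := by
  rw [← act_add h hψ _ _ hy, neg_add_cancel, act_zero h0]

/-- iterates of an affine map -/
theorem iter_aff (hψ : ∀ i s t y, ψ i (s + t) y = ψ i s (ψ i t y)) {y₀ : N} (hy₀ : y₀ ∈ L)
    {b : W k} (hb : f y₀ = act ψ b y₀) (j : ℕ) (w : W k) :
    f^[j] (act ψ w y₀) = act ψ ((A ^ j) w + S A j b) y₀ := by
  induction j with
  | zero => simp [S]
  | succ j ih =>
    rw [Function.iterate_succ_apply', ih, h.aff _ _ hy₀, hb, ← act_add h hψ _ _ hy₀, S_succ]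
    congr 1
    simp only [map_add, pow_succ', Module.End.mul_apply, LinearMap.add_apply, Module.End.one_apply]
    abel

end alg

variable {n : ℕ} {N : Type u} [TopologicalSpace N] [T2Space N] [CompactSpace N]
  [ChartedSpace (V n) N] [IsManifold (𝓡 n) ∞ N]

/-- **Perturbations by several flows**, after the map. -/
theorem perturbP {r : ℕ∞} (hr : 1 ≤ r) (F : DiffM n N r) {ψ : ℕ → ℝ → N → N}
    (hψ : ∀ i, IsFlow n N (ψ i)) {ρ : N → ℝ} (hρ : ContMDiff (𝓡 n) 𝓘(ℝ, ℝ) ∞ ρ) (k : ℕ) (z : N)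
    (U : Set (DiffM n N r)) (hU : IsOpen[strongTop n N r] U) (hFU : F ∈ U) :
    ∃ κ : ℝ, 0 < κ ∧ ∀ v : W k, (∀ i, |v i| < κ) →
      ∃ G ∈ U, ∀ y, G y = cps ψ ρ (ex v) k (F y) := by
  obtain ⟨A, κ, hκ, hA0, hA, hA1⟩ := cps_fam (n := n) (N := N) r hψ hρ k k
  obtain ⟨κ', hκ', hmem⟩ := fam_mem r hr (fun s => F.trans (A s)) (fam_trans (fam_const F) hA) z U
    hU (by
      have : F.trans (A 0) = F := by
        rw [hA0]
        ext y
        rfl
      rw [this]
      exact hFU)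
  have hc : Continuous fun x : Fin k → ℝ => ‖((EuclideanSpace.equiv (Fin k) ℝ).symm x : V k)‖ :=
    (EuclideanSpace.equiv (Fin k) ℝ).symm.continuous.norm
  obtain ⟨δ, hδ, hs⟩ : ∃ δ : ℝ, 0 < δ ∧ ∀ x : Fin k → ℝ, ‖x‖ < δ →
      ‖((EuclideanSpace.equiv (Fin k) ℝ).symm x : V k)‖ < min κ κ' := by
    have h1 : {x : Fin k → ℝ | ‖((EuclideanSpace.equiv (Fin k) ℝ).symm x : V k)‖ < min κ κ'} ∈
        𝓝 (0 : Fin k → ℝ) :=
      (isOpen_lt hc continuous_const).mem_nhds (by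
        show ‖((EuclideanSpace.equiv (Fin k) ℝ).symm 0 : V k)‖ < min κ κ'
        rw [map_zero, norm_zero]
        exact lt_min hκ hκ')
    obtain ⟨δ, hδ, h2⟩ := Metric.mem_nhds_iff.1 h1
    exact ⟨δ, hδ, fun s hs => h2 (by rw [mem_ball, dist_zero_right]; exact hs)⟩
  refine ⟨δ, hδ, fun v hv => ?_⟩
  have h1 : ‖v‖ < δ := by
    rw [pi_norm_lt_iff hδ]
    intro i
    rw [Real.norm_eq_abs]
    exact hv i
  set s : V k := (EuclideanSpace.equiv (Fin k) ℝ).symm v with hsd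
  have h2 := hs _ h1
  rw [← hsd] at h2
  refine ⟨F.trans (A s), hmem s (h2.trans_le (min_le_right _ _)), fun y => ?_⟩
  show A s (F y) = _
  rw [hA1 s (h2.trans_le (min_le_left _ _))]
  refine cps_congr ψ ρ (fun i hi => ?_) _
  show (if h : i < k then s ⟨i, h⟩ else 0) = ex v i
  simp [ex, hi, hsd]

/-- the time vectors which move no point of `L` -/
def Sta {N : Type*} (ψ : ℕ → ℝ → N → N) {k : ℕ} (L : Set N) (w : W k) : Prop :=
  ∀ t : ℝ, ∀ y ∈ L, act ψ (t • w) y = y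

section sta

variable {k : ℕ} {ψ : ℕ → ℝ → N → N} {A : W k →ₗ[ℝ] W k} {f : N → N} {L : Set N}
  (h : Aff k ψ A f L)

include h

theorem sta_add (hψ : ∀ i s t y, ψ i (s + t) y = ψ i s (ψ i t y)) {w w' : W k} (hw : Sta ψ L w)
    (hw' : Sta ψ L w') : Sta ψ L (w + w') := by
  intro t y hy
  rw [smul_add, act_add h hψ _ _ hy, hw' t y hy, hw t y hy]

theorem sta_map (htr : ∀ y ∈ L, ∀ z ∈ L, ∃ w : W k, act ψ w y = z) {w : W k} (hw : Sta ψ L w) :
    Sta ψ L (A w) := by
  intro t y hy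
  obtain ⟨v, hv⟩ := htr (f y) (h.map y hy) y hy
  have h1 : act ψ (t • A w) (f y) = f y := by
    rw [← map_smul, ← h.aff _ _ hy, hw t y hy]
  rw [← hv, act_comm h _ _ (h.map y hy), h1]

theorem sta_iter (hψ : ∀ i s t y, ψ i (s + t) y = ψ i s (ψ i t y))
    (htr : ∀ y ∈ L, ∀ z ∈ L, ∃ w : W k, act ψ w y = z) {q : ℕ} {e : W k}
    (he : Sta ψ L ((A ^ q) e - e)) (l : ℕ) : Sta ψ L ((A ^ (q * l)) e - e) := by
  have hmap : ∀ (i : ℕ) {w : W k}, Sta ψ L w → Sta ψ L ((A ^ i) w) := by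
    intro i
    induction i with
    | zero => intro w hw; exact hw
    | succ i ih =>
      intro w hw
      rw [pow_succ', Module.End.mul_apply]
      exact sta_map h htr (ih hw)
  induction l with
  | zero =>
    intro t y hy
    simp only [Nat.mul_zero, pow_zero, Module.End.one_apply, sub_self, smul_zero]
    have h1 := he 0 y hy
    rwa [zero_smul] at h1
  | succ l ih =>
    have h1 : (A ^ (q * (l + 1))) e - e = (A ^ (q * l)) ((A ^ q) e - e) + ((A ^ (q * l)) e - e) := by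
      rw [Nat.mul_succ, pow_add, Module.End.mul_apply, map_sub]
      abel
    rw [h1]
    exact sta_add h hψ (hmap _ he) ih

end sta

/-- **Directions of finite order are stationary.** Let `L` be a compact orbit of commuting flows,
periodic under the `Ω`-stable diffeomorphism `F` with affine return map with linear part `A`. If
`A^q e - e` moves no point of `L`, then `e` moves no point of `L`. -/
theorem fixed_dir {r : ℕ∞} (hr : 1 ≤ r) {F : DiffM n N r} (hF : OmegaStable n N r F)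
    {k m : ℕ} (hm : 1 ≤ m) {ψ : ℕ → ℝ → N → N} (hψ : ∀ i, IsFlow n N (ψ i)) {L : Set N}
    (hL : IsCompact L) (hdis : ∀ i, 1 ≤ i → i < m → Disjoint (F^[i] '' L) L)
    {A : W k →ₗ[ℝ] W k} (hc : Aff k ψ A F^[m] L)
    (htr : ∀ y ∈ L, ∀ z ∈ L, ∃ w : W k, act ψ w y = z) {q : ℕ} (hq : 1 ≤ q) {e : W k}
    (he : Sta ψ L ((A ^ q) e - e)) : Sta ψ L e := by
  intro t y hy
  have h0 : ∀ i y, ψ i 0 y = y := fun i => (hψ i).zero
  have hadd : ∀ i s t y, ψ i (s + t) y = ψ i s (ψ i t y) := fun i => (hψ i).add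
  have hFc : ∀ i : ℕ, Continuous (F^[i]) := fun i => F.continuous.iterate i
  obtain ⟨C0, hC0⟩ : ∃ C0 : Set N, C0 = ⋃ i ∈ Finset.Ico 1 m, F^[i] '' L := ⟨_, rfl⟩
  have hC0c : IsClosed C0 := by
    rw [hC0]
    exact isClosed_biUnion_finset fun i _ => (hL.image (hFc i)).isClosed
  have hdisj : Disjoint C0 L := by
    rw [hC0, Set.disjoint_left]
    intro y hy1 hy2
    simp only [mem_iUnion, Finset.mem_Ico] at hy1
    obtain ⟨i, ⟨hi1, hi2⟩, hy⟩ := hy1
    exact Set.disjoint_left.1 (hdis i hi1 hi2) hy hy2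
  obtain ⟨ρ, hf0, hf1, -⟩ := exists_contMDiffMap_zero_one_of_isClosed (n := ⊤) (𝓡 n) hC0c
    hL.isClosed hdisj
  have hρ : ContMDiff (𝓡 n) 𝓘(ℝ, ℝ) ∞ (ρ : N → ℝ) := ρ.contMDiff
  have hf1' : ∀ y ∈ L, ρ y = 1 := fun y hy => hf1 hy
  obtain ⟨U₁, hU₁, hFU₁, hfin⟩ := finite_per hr hF
  obtain ⟨κ, hκ, hpert⟩ := perturbP hr F hψ hρ k y U₁ hU₁ hFU₁
  -- the data at the base point
  obtain ⟨b, hb⟩ := htr y hy _ (hc.map y hy)
  obtain ⟨R, hR⟩ := bounded hψ hL hc.toComm (fun y hy z hz => by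
    obtain ⟨w, hw⟩ := htr y hy z hz
    exact ⟨ex w, hw⟩) hy
  obtain ⟨p, hp1, hpR, hpS⟩ := good_prime A (R / κ + 1)
  have hp0 : (0 : ℝ) < p := by exact_mod_cast hp1
  obtain ⟨ρ', hρ'b, hρ'⟩ := hR (act ψ ((p : ℝ) • b) y) (act_mem hc _ hy)
  set s : W k := fun i => ρ' i with hs
  have hsy : act ψ s y = act ψ ((p : ℝ) • b) y := by
    rw [← hρ']
    refine mv_congr ψ (fun i hi => ?_) y
    simp [ex, hi, hs]
  have hlam : act ψ ((p : ℝ) • b - s) y = y := by
    have h1 : (p : ℝ) • b - s = -s + (p : ℝ) • b := by abel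
    rw [h1, act_add hc hadd _ _ hy, ← hsy, act_neg hc h0 hadd s hy]
  set l : W k := (p : ℝ) • b - s with hl
  obtain ⟨G, hGU, hG⟩ := hpert (-((p : ℝ)⁻¹ • s)) (fun i => by
    have h1 : |(-((p : ℝ)⁻¹ • s)) i| = (p : ℝ)⁻¹ * |ρ' i| := by
      show |-((p : ℝ)⁻¹ * ρ' i)| = _
      rw [abs_neg, abs_mul, abs_of_pos (inv_pos.2 hp0)]
    rw [h1, inv_mul_lt_iff₀ hp0]
    have h2 := hρ'b i i.2
    have h3 : R / κ < p := by linarith
    rw [div_lt_iff₀ hκ] at h3
    exact h2.trans_lt h3)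
  -- the first return of `G`
  have h1 : ∀ y ∈ L, ∀ i : ℕ, i < m → G^[i] y = F^[i] y := by
    intro y hy i him
    induction i with
    | zero => rfl
    | succ i ih =>
      rw [Function.iterate_succ_apply', ih (by omega), hG, Function.iterate_succ_apply' F]
      have h2 : ρ (F (F^[i] y)) = 0 := hf0 (by
        rw [hC0]
        simp only [mem_iUnion, Finset.mem_Ico]
        exact ⟨i + 1, ⟨by omega, him⟩, y, hy, Function.iterate_succ_apply' F i y⟩)
      rw [cps_id h0 _ _ h2]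
  have h2 : ∀ y ∈ L, G^[m] y = act ψ (-((p : ℝ)⁻¹ • s)) (F^[m] y) := by
    intro y hy
    obtain ⟨m', rfl⟩ : ∃ m', m = m' + 1 := ⟨m - 1, by omega⟩
    rw [Function.iterate_succ_apply', h1 y hy m' (by omega), hG, Function.iterate_succ_apply' F]
    refine cps_eq hc.toComm hf1' _ le_rfl ?_
    have := hc.map y hy
    rwa [Function.iterate_succ_apply'] at this
  have hcG : Aff k ψ A G^[m] L := by
    refine ⟨hc.inv, hc.comm, fun y hy => ?_, fun w y hy => ?_⟩
    · rw [h2 y hy]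
      exact act_mem hc _ (hc.map y hy)
    · rw [h2 _ (act_mem hc _ hy), h2 y hy, hc.aff w y hy, act_comm hc _ _ (hc.map y hy)]
  have hbG : G^[m] y = act ψ ((p : ℝ)⁻¹ • l) y := by
    rw [h2 y hy, ← hb, ← act_add hc hadd _ _ hy]
    congr 1
    rw [hl, smul_sub, smul_smul, inv_mul_cancel₀ hp0.ne', one_smul]
    abel
  obtain ⟨u, hu⟩ := solve A hp1 hpS l
  have hz0 : (G^[m])^[p] (act ψ u y) = act ψ u y := by
    rw [iter_aff hcG hadd hy hbG, hu, act_add hc hadd _ _ hy, hlam]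
  have hz : ∀ τ : ℝ, (G^[m])^[p * q] (act ψ (τ • e + u) y) = act ψ (τ • e + u) y := by
    intro τ
    have h4 : ∀ (j : ℕ) (w : W k) (z : N), z ∈ L →
        (G^[m])^[j] (act ψ w z) = act ψ ((A ^ j) w) ((G^[m])^[j] z) := by
      intro j
      induction j with
      | zero => intro w z _; rfl
      | succ j ih =>
        intro w z hzL
        rw [Function.iterate_succ_apply, hcG.aff w z hzL, ih _ _ (hcG.map z hzL),
          Function.iterate_succ_apply, pow_succ, Module.End.mul_apply]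
    have h5 : (G^[m])^[p * q] (act ψ u y) = act ψ u y := by
      rw [Function.iterate_mul]
      exact Function.iterate_fixed hz0 q
    rw [act_add hc hadd _ _ hy, h4 _ _ _ (act_mem hc _ hy), h5]
    have h6 : (A ^ (p * q)) (τ • e) = τ • e + τ • ((A ^ (q * p)) e - e) := by
      rw [map_smul, smul_sub, Nat.mul_comm p q]; abel
    rw [h6, act_add hc hadd _ _ (act_mem hc _ hy),
      sta_iter hc hadd htr he p τ _ (act_mem hc _ hy)]
  have hfinG := hfin G hGU (m * (p * q)) (Nat.mul_pos hm (Nat.mul_pos hp1 hq))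
  -- the curve of periodic points is constant
  have hcont : Continuous fun τ : ℝ => act ψ (τ • e + u) y := by
    refine (mv_cont_w hψ y k).comp ?_
    refine continuous_pi fun i => ?_
    by_cases hi : i < k
    · simp only [ex, hi, dif_pos]
      fun_prop
    · simp only [ex, hi, dif_neg, not_false_eq_true]
      exact continuous_const
  have hconst : ∀ τ : ℝ, act ψ (τ • e + u) y = act ψ ((0 : ℝ) • e + u) y := by
    intro τ
    have hpre : IsPreconnected (range fun τ : ℝ => act ψ (τ • e + u) y) :=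
      isPreconnected_range hcont
    have hsub : (range fun τ : ℝ => act ψ (τ • e + u) y) ⊆ {x | G^[m * (p * q)] x = x} := by
      rintro _ ⟨τ, rfl⟩
      show G^[m * (p * q)] _ = _
      rw [Function.iterate_mul]
      exact hz τ
    have hss : (range fun τ : ℝ => act ψ (τ • e + u) y).Subsingleton := by
      by_contra hcon
      exact hpre.infinite_of_nontrivial (Set.not_subsingleton_iff.1 hcon) (hfinG.subset hsub)
    exact hss ⟨τ, rfl⟩ ⟨0, rfl⟩
  have h4 := hconst t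
  rw [zero_smul, zero_add, act_add hc hadd _ _ hy, act_comm hc _ _ hy] at h4
  have h5 := congrArg (act ψ (-u)) h4
  rwa [act_neg hc h0 hadd u (act_mem hc _ hy), act_neg hc h0 hadd u hy] at h5

/-- **Quasi-unipotent directions are stationary.** -/
theorem unip_dir {r : ℕ∞} (hr : 1 ≤ r) {F : DiffM n N r} (hF : OmegaStable n N r F)
    {k m : ℕ} (hm : 1 ≤ m) {ψ : ℕ → ℝ → N → N} (hψ : ∀ i, IsFlow n N (ψ i)) {L : Set N}
    (hL : IsCompact L) (hdis : ∀ i, 1 ≤ i → i < m → Disjoint (F^[i] '' L) L)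
    {A : W k →ₗ[ℝ] W k} (hc : Aff k ψ A F^[m] L)
    (htr : ∀ y ∈ L, ∀ z ∈ L, ∃ w : W k, act ψ w y = z) {q : ℕ} (hq : 1 ≤ q) (j : ℕ) (e : W k)
    (he : ((A ^ q - 1) ^ j) e = 0) : Sta ψ L e := by
  have h0 : ∀ i y, ψ i 0 y = y := fun i => (hψ i).zero
  induction j generalizing e with
  | zero =>
    have : e = 0 := he
    subst this
    intro t y _
    rw [smul_zero, act_zero h0]
  | succ j ih =>
    refine fixed_dir hr hF hm hψ hL hdis hc htr hq (ih _ ?_)
    have h1 : ((A ^ q - 1) ^ (j + 1)) e = ((A ^ q - 1) ^ j) ((A ^ q - 1) e) := by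
      rw [pow_succ, Module.End.mul_apply]
    rw [h1] at he
    exact he

end Pool.Agent.X183.AT
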