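import Pool.Agent.H66.L.T64922ed1.X183.AT.Act

/-!
# Periodic tori with an affine return map are hyperbolic
-/

set_option autoImplicit false
set_option linter.unusedSectionVars false

open scoped Manifold ContDiff Topology
open Filter Set Metric

universe u

namespace Pool.Agent.X183.AT

open Pool.Agent.H718R2.G Pool.Agent.TH290.CL Pool.Agent.TH80.CLX Pool.Agent.TH80.OMS
open Pool.Agent.X183.QP Pool.Agent.X183.PC

variable {n : ℕ} {N : Type u} [TopologicalSpace N] [T2Space N] [CompactSpace N]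
  [ChartedSpace (V n) N] [IsManifold (𝓡 n) ∞ N] {r : ℕ∞}

/-- a homogeneous curve with a zero of its velocity is constant -/
theorem const_of_velocity {c : ℝ → N} (hc : ContMDiff 𝓘(ℝ, ℝ) (𝓡 n) ∞ c) {Θ : ℝ → N → N}
    (hΘ : ∀ t, ContMDiff (𝓡 n) (𝓡 n) ∞ (Θ t)) (hadd : ∀ t s, c (t + s) = Θ t (c s))
    {χ : OpenPartialHomeomorph N (V n)} (hχ : χ ∈ IsManifold.maximalAtlas (𝓡 n) ∞ N)
    (hs : c 0 ∈ χ.source) (hv : HasDerivAt (fun s => χ (c s)) 0 0) (t₁ : ℝ) : c t₁ = c 0 := by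
  have key : ∀ ρ : N → ℝ, ContMDiff (𝓡 n) 𝓘(ℝ, ℝ) ∞ ρ → ρ (c t₁) = ρ (c 0) := by
    intro ρ hρ
    have hsm : ContDiff ℝ ∞ fun t : ℝ => ρ (c t) := contMDiff_iff_contDiff.1 (hρ.comp hc)
    have hd : Differentiable ℝ fun t : ℝ => ρ (c t) := hsm.differentiable (by simp)
    have hzero : ∀ t, deriv (fun t : ℝ => ρ (c t)) t = 0 := by
      intro t
      set L : V n → ℝ := fun w => ρ (Θ t (χ.symm w)) with hL
      have hLd : DifferentiableAt ℝ L (χ (c 0)) := by
        have h2 : ContMDiffAt (𝓡 n) (𝓡 n) ∞ χ.symm (χ (c 0)) :=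
          (contMDiffOn_symm_of_mem_maximalAtlas hχ).contMDiffAt
            (χ.open_target.mem_nhds (χ.map_source hs))
        have h3 : ContMDiffAt (𝓡 n) 𝓘(ℝ, ℝ) ∞ L (χ (c 0)) :=
          (hρ.comp (hΘ t)).contMDiffAt.comp _ h2
        exact (contMDiffAt_iff_contDiffAt.1 h3).differentiableAt (by simp)
      have h4 : HasDerivAt (fun s => L (χ (c s))) (fderiv ℝ L (χ (c 0)) 0) 0 :=
        HasFDerivAt.comp_hasDerivAt (f := fun s => χ (c s)) (l := L) 0 hLd.hasFDerivAt hv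
      rw [map_zero] at h4
      have h5 : (fun s => ρ (c (t + s))) =ᶠ[𝓝 0] fun s => L (χ (c s)) := by
        filter_upwards [hc.continuous.continuousAt.preimage_mem_nhds
          (χ.open_source.mem_nhds hs)] with s hs'
        show ρ (c (t + s)) = ρ (Θ t (χ.symm (χ (c s))))
        rw [χ.left_inv hs', hadd]
      have h6 : HasDerivAt (fun s => ρ (c (t + s))) 0 0 := h4.congr_of_eventuallyEq h5
      have h7 : HasDerivAt (fun s => ρ (c s)) (deriv (fun t : ℝ => ρ (c t)) t) (t + 0) := by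
        rw [add_zero]
        exact (hd t).hasDerivAt
      have h8 := h7.comp_const_add t 0
      exact h8.unique h6
    exact is_const_of_deriv_eq_zero hd hzero t₁ 0
  by_contra hne
  have hdis : Disjoint ({c 0} : Set N) {c t₁} := by
    rw [Set.disjoint_singleton]
    exact fun h => hne h.symm
  obtain ⟨f, hf0, hf1, -⟩ := exists_contMDiffMap_zero_one_of_isClosed (n := ⊤) (𝓡 n)
    (isClosed_singleton (x := c 0)) (isClosed_singleton (x := c t₁)) hdis
  have h1 := key f f.contMDiff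
  have h2 : f (c 0) = 0 := hf0 (mem_singleton _)
  have h3 : f (c t₁) = 1 := hf1 (mem_singleton _)
  rw [h2, h3] at h1
  exact one_ne_zero h1

theorem ex_apply_smooth {k : ℕ} (i : ℕ) : ContDiff ℝ ∞ fun w : W k => ex w i := by
  by_cases hi : i < k
  · simp only [ex, hi, dif_pos]
    fun_prop
  · simp only [ex, hi, dif_neg, not_false_eq_true]
    exact contDiff_const

theorem mv_smooth_w {k : ℕ} {ψ : ℕ → ℝ → N → N} (hψ : ∀ i, IsFlow n N (ψ i)) (p : N) (j : ℕ) :
    ContMDiff 𝓘(ℝ, W k) (𝓡 n) ∞ (fun w : W k => mv ψ (ex w) j p) := by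
  induction j with
  | zero => exact contMDiff_const
  | succ j ih =>
    exact (hψ j).smooth.comp ((ex_apply_smooth j).contMDiff.prodMk ih)

theorem mv_smooth_y {ψ : ℕ → ℝ → N → N} (hψ : ∀ i, IsFlow n N (ψ i)) (w : ℕ → ℝ) (j : ℕ) :
    ContMDiff (𝓡 n) (𝓡 n) ∞ (fun y : N => mv ψ w j y) := by
  induction j with
  | zero => exact contMDiff_id
  | succ j ih => exact (time_smooth (hψ j) (w j)).comp ih

/-- The derivative of the orbit map at a periodic point with locally free orbit: it is injective and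
conjugates `A` to the restriction of the derivative of `F^m`. -/
theorem deriv_at {F : DiffM n N r} {k m : ℕ} {ψ : ℕ → ℝ → N → N} (hψ : ∀ i, IsFlow n N (ψ i))
    {L : Set N} {A : W k →ₗ[ℝ] W k} (hc : Aff k ψ A F^[m] L) {p : N} (hpL : p ∈ L)
    (hFp : F^[m] p = p) (hfree : ∀ w : W k, w ≠ 0 → ∃ t : ℝ, act ψ (t • w) p ≠ p)
    {χ : OpenPartialHomeomorph N (V n)} (hχ : χ ∈ IsManifold.maximalAtlas (𝓡 n) ∞ N)
    (hpχ : p ∈ χ.source) {D : V n →L[ℝ] V n}
    (hD : HasFDerivAt (fun v => χ (F^[m] (χ.symm v))) D (χ p)) :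
    ∃ J : W k →L[ℝ] V n, HasFDerivAt (fun w : W k => χ (act ψ w p)) J 0 ∧
      (∀ w, D (J w) = J (A w)) ∧ ∀ w, J w = 0 → w = 0 := by
  have h0 : ∀ i y, ψ i 0 y = y := fun i => (hψ i).zero
  have hadd : ∀ i s t y, ψ i (s + t) y = ψ i s (ψ i t y) := fun i => (hψ i).add
  have hc0 : act ψ (0 : W k) p = p := act_zero h0 p
  have hcw : Continuous fun w : W k => act ψ w p := (mv_smooth_w (n := n) hψ p k).continuous
  have hΨs : ContMDiffAt 𝓘(ℝ, W k) (𝓡 n) ∞ (fun w : W k => χ (act ψ w p)) 0 := by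
    have h2 : ContMDiffAt (𝓡 n) (𝓡 n) ∞ χ (act ψ (0 : W k) p) :=
      (contMDiffOn_of_mem_maximalAtlas hχ).contMDiffAt (χ.open_source.mem_nhds (by rwa [hc0]))
    exact h2.comp (0 : W k) (mv_smooth_w (n := n) hψ p k).contMDiffAt
  have hΨd : DifferentiableAt ℝ (fun w : W k => χ (act ψ w p)) 0 :=
    (contMDiffAt_iff_contDiffAt.1 hΨs).differentiableAt (by simp)
  set J : W k →L[ℝ] V n := fderiv ℝ (fun w : W k => χ (act ψ w p)) 0 with hJ
  have hΨJ : HasFDerivAt (fun w : W k => χ (act ψ w p)) J 0 := hΨd.hasFDerivAt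
  refine ⟨J, hΨJ, ?_, ?_⟩
  · have e1 : HasFDerivAt (fun w : W k => χ (F^[m] (χ.symm (χ (act ψ w p))))) (D.comp J) 0 := by
      have hD' : HasFDerivAt (fun v => χ (F^[m] (χ.symm v))) D (χ (act ψ (0 : W k) p)) := by
        rwa [hc0]
      exact hD'.comp (0 : W k) hΨJ
    have e2 : HasFDerivAt (fun w : W k => χ (act ψ (A w) p))
        (J.comp (LinearMap.toContinuousLinearMap A)) 0 := by
      have hA : HasFDerivAt (fun w : W k => A w) (LinearMap.toContinuousLinearMap A) 0 :=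
        (LinearMap.toContinuousLinearMap A).hasFDerivAt
      have hΨJ' : HasFDerivAt (fun w : W k => χ (act ψ w p)) J (A 0) := by
        rwa [map_zero]
      exact hΨJ'.comp (0 : W k) hA
    have e3 : (fun w : W k => χ (act ψ (A w) p)) =ᶠ[𝓝 0]
        (fun w : W k => χ (F^[m] (χ.symm (χ (act ψ w p))))) := by
      have : {w : W k | act ψ w p ∈ χ.source} ∈ 𝓝 (0 : W k) :=
        hcw.continuousAt.preimage_mem_nhds (χ.open_source.mem_nhds (by rwa [hc0]))
      filter_upwards [this] with w hw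
      rw [χ.left_inv hw, hc.aff _ _ hpL, hFp]
    have e4 := (e1.congr_of_eventuallyEq e3).unique e2
    intro w
    have := congrArg (fun B : W k →L[ℝ] V n => B w) e4
    simpa using this
  · intro w hw
    by_contra hne
    obtain ⟨t, ht⟩ := hfree w hne
    apply ht
    have hcs : ContMDiff 𝓘(ℝ, ℝ) (𝓡 n) ∞ (fun t : ℝ => act ψ (t • w) p) := by
      have h2 : ContDiff ℝ ∞ fun t : ℝ => t • w := by fun_prop
      exact (mv_smooth_w (n := n) hψ p k).comp h2.contMDiff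
    have hcadd : ∀ t s : ℝ, act ψ ((t + s) • w) p = act ψ (t • w) (act ψ (s • w) p) := by
      intro t s
      rw [add_smul, act_add hc hadd _ _ hpL]
    have hv : HasDerivAt (fun s : ℝ => χ (act ψ (s • w) p)) 0 0 := by
      have h2 : HasDerivAt (fun s : ℝ => s • w) w 0 := by
        simpa using (hasDerivAt_id (0 : ℝ)).smul_const w
      have h3 : HasFDerivAt (fun w : W k => χ (act ψ w p)) J ((0 : ℝ) • w) := by
        rwa [zero_smul]
      have h4 := h3.comp_hasDerivAt (0 : ℝ) h2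
      rwa [hw] at h4
    have h5 := const_of_velocity (n := n) hcs (Θ := fun t => act ψ (t • w))
      (fun t => mv_smooth_y hψ _ k) hcadd hχ (by rwa [zero_smul, hc0]) hv t
    rw [zero_smul, hc0] at h5
    exact h5

/-- **Hyperbolicity at periodic points with locally free orbit.** -/
theorem hyp_at (hr : 1 ≤ r) {F : DiffM n N r} (hF : OmegaStable n N r F)
    {k m : ℕ} (hm : 1 ≤ m) {ψ : ℕ → ℝ → N → N} (hψ : ∀ i, IsFlow n N (ψ i)) {L : Set N}
    {A : W k →ₗ[ℝ] W k} (hc : Aff k ψ A F^[m] L) {p : N} (hpL : p ∈ L) (hFp : F^[m] p = p)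
    (hfree : ∀ w : W k, w ≠ 0 → ∃ t : ℝ, act ψ (t • w) p ≠ p)
    {μ : ℂ} (hμ : ((LinearMap.charpoly A).map (algebraMap ℝ ℂ)).IsRoot μ) : ‖μ‖ ≠ 1 := by
  intro hμ1
  obtain ⟨-, hyp⟩ := Pool.Agent.Y504.CO.Gen.stable_hyp hr hF p ⟨m, hm, hFp⟩
  set χ := chartAt (V n) p with hχd
  have hχ : χ ∈ IsManifold.maximalAtlas (𝓡 n) ∞ N := IsManifold.chart_mem_maximalAtlas p
  have hpχ : p ∈ χ.source := mem_chart_source _ p
  obtain ⟨D, hD, hD1⟩ := hyp m hm hFp χ hχ hpχ
  obtain ⟨J, -, hDJ, hJi⟩ := deriv_at hψ hc hpL hFp hfree hχ hpχ hD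
  obtain ⟨w, hw0, hw⟩ := quad_of_root A hμ
  have hxy : μ.re ^ 2 + μ.im ^ 2 = 1 := by
    have h2 : ‖μ‖ ^ 2 = 1 := by rw [hμ1, one_pow]
    rw [← Complex.normSq_eq_norm_sq, Complex.normSq_apply] at h2
    nlinarith
  have h2 := no_quad (D : V n →ₗ[ℝ] V n) hD1 hxy (v := J w) (by
    show D (D (J w)) - (2 * μ.re) • D (J w) + (μ.re ^ 2 + μ.im ^ 2) • J w = 0
    have h3 := congrArg (fun x => J x) hw
    simp only [map_add, map_sub, map_smul, map_zero] at h3
    rw [hDJ, hDJ]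
    exact h3)
  exact hw0 (hJi w h2)

/-- the return map of an affine torus has a fixed point -/
theorem exists_fixed (hr : 1 ≤ r) {F : DiffM n N r} (hF : OmegaStable n N r F)
    {k m : ℕ} (hm : 1 ≤ m) {ψ : ℕ → ℝ → N → N} (hψ : ∀ i, IsFlow n N (ψ i)) {L : Set N}
    (hL : IsCompact L) (hLn : L.Nonempty)
    (hdis : ∀ i, 1 ≤ i → i < m → Disjoint (F^[i] '' L) L)
    {A : W k →ₗ[ℝ] W k} (hc : Aff k ψ A F^[m] L)
    (htr : ∀ y ∈ L, ∀ z ∈ L, ∃ w : W k, act ψ w y = z)
    (hfree : ∀ w : W k, w ≠ 0 → ∀ y ∈ L, ∃ t : ℝ, act ψ (t • w) y ≠ y) :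
    ∃ p ∈ L, F^[m] p = p := by
  have hadd : ∀ i s t y, ψ i (s + t) y = ψ i s (ψ i t y) := fun i => (hψ i).add
  obtain ⟨y, hy⟩ := hLn
  have h1 : ∀ e : W k, A e = e → e = 0 := by
    intro e he
    by_contra hne
    obtain ⟨t, ht⟩ := hfree e hne y hy
    refine ht (fixed_dir hr hF hm hψ hL hdis hc htr (q := 1) le_rfl ?_ t y hy)
    rw [pow_one, he, sub_self]
    intro t y _
    rw [smul_zero, act_zero fun i => (hψ i).zero]
  have hsurj : Function.Surjective (A - LinearMap.id : W k →ₗ[ℝ] W k) := by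
    rw [← LinearMap.injective_iff_surjective, ← LinearMap.ker_eq_bot, Submodule.eq_bot_iff]
    intro e he
    apply h1
    have : A e - e = 0 := by simpa using he
    exact sub_eq_zero.1 this
  obtain ⟨b, hb⟩ := htr y hy _ (hc.map y hy)
  obtain ⟨u, hu⟩ := hsurj (-b)
  have hu' : A u + b = u := by
    have h2 : A u - u = -b := by simpa using hu
    have h3 : A u = u - b := by
      rw [sub_eq_iff_eq_add] at h2
      rw [h2]; abel
    rw [h3]; abel
  refine ⟨act ψ u y, act_mem hc _ hy, ?_⟩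
  rw [hc.aff _ _ hy, ← hb, ← act_add hc hadd _ _ hy, hu']

/-- the stabilizer of a point with locally free orbit has finitely many elements in each ball -/
theorem stab_finite {k : ℕ} {ψ : ℕ → ℝ → N → N} (hψ : ∀ i, IsFlow n N (ψ i)) {f : N → N}
    {L : Set N} {A : W k →ₗ[ℝ] W k} (hc : Aff k ψ A f L) {p : N} (hpL : p ∈ L)
    {χ : OpenPartialHomeomorph N (V n)} {J : W k →L[ℝ] V n}
    (hJ : HasFDerivAt (fun w : W k => χ (act ψ w p)) J 0) (hJi : ∀ w, J w = 0 → w = 0) (R : ℝ) :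
    {w : W k | ‖w‖ ≤ R ∧ act ψ w p = p}.Finite := by
  have h0 : ∀ i y, ψ i 0 y = y := fun i => (hψ i).zero
  have hadd : ∀ i s t y, ψ i (s + t) y = ψ i s (ψ i t y) := fun i => (hψ i).add
  have hcw : Continuous fun w : W k => act ψ w p := (mv_smooth_w (n := n) hψ p k).continuous
  obtain ⟨K, hK, hKJ⟩ := LinearMap.exists_antilipschitzWith (J : W k →ₗ[ℝ] V n) (by
    rw [Submodule.eq_bot_iff]
    intro w hw
    exact hJi w hw)
  have hne := hJ.eventually_ne (c := χ p) ⟨K, hKJ⟩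
  by_contra hinf
  have hcomp : IsCompact {w : W k | ‖w‖ ≤ R ∧ act ψ w p = p} := by
    have h1 : IsCompact (closedBall (0 : W k) R) := isCompact_closedBall _ _
    have h2 : IsClosed {w : W k | act ψ w p = p} := isClosed_eq hcw continuous_const
    have h3 := h1.inter_right h2
    refine h3.of_isClosed_subset ?_ ?_
    · exact (isClosed_le continuous_norm continuous_const).inter h2
    · rintro w ⟨hw1, hw2⟩
      exact ⟨by simpa using hw1, hw2⟩
  obtain ⟨x, hx, hacc⟩ := (show Set.Infinite _ from hinf).exists_accPt_of_subset_isCompact hcomp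
    subset_rfl
  rw [accPt_iff_frequently_nhdsNE] at hacc
  have hcont : Tendsto (fun w : W k => w - x) (𝓝[≠] x) (𝓝[≠] 0) := by
    refine tendsto_nhdsWithin_iff.2 ⟨?_, ?_⟩
    · have h1 : Tendsto (fun w : W k => w - x) (𝓝 x) (𝓝 (x - x)) :=
        (continuous_id.sub continuous_const).tendsto x
      rw [sub_self] at h1
      exact h1.mono_left nhdsWithin_le_nhds
    · filter_upwards [self_mem_nhdsWithin] with w hw
      exact sub_ne_zero.2 hw
  have h2 := hcont.eventually hne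
  obtain ⟨w, hw1, hw2⟩ := (hacc.and_eventually h2).exists
  apply hw2
  have h3 : act ψ (w - x) p = p := by
    rw [sub_eq_neg_add, act_add hc hadd _ _ hpL, hw1.2]
    have h4 := act_neg hc h0 hadd x hpL
    rwa [hx.2] at h4
  show χ (act ψ (w - x) p) = χ p
  rw [h3]

/-- **Periodic points are dense in affine tori.** -/
theorem dense_per {F : DiffM n N r} {k m : ℕ} (hm : 1 ≤ m) {ψ : ℕ → ℝ → N → N}
    (hψ : ∀ i, IsFlow n N (ψ i)) {L : Set N} (hL : IsCompact L) {A : W k →ₗ[ℝ] W k}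
    (hc : Aff k ψ A F^[m] L) (htr : ∀ y ∈ L, ∀ z ∈ L, ∃ w : W k, act ψ w y = z) {p : N}
    (hpL : p ∈ L) (hFp : F^[m] p = p)
    (hfin : ∀ R : ℝ, {w : W k | ‖w‖ ≤ R ∧ act ψ w p = p}.Finite) :
    L ⊆ closure (Per F) := by
  have h0 : ∀ i y, ψ i 0 y = y := fun i => (hψ i).zero
  have hadd : ∀ i s t y, ψ i (s + t) y = ψ i s (ψ i t y) := fun i => (hψ i).add
  have hcw : Continuous fun w : W k => act ψ w p := (mv_smooth_w (n := n) hψ p k).continuous
  obtain ⟨R₀, hR₀⟩ := bounded hψ hL hc.toComm (fun y hy z hz => by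
    obtain ⟨w, hw⟩ := htr y hy z hz
    exact ⟨ex w, hw⟩) hpL
  obtain ⟨R, hR0, hR⟩ : ∃ R : ℝ, 0 ≤ R ∧ ∀ z ∈ L, ∃ w : W k, ‖w‖ ≤ R ∧ act ψ w p = z := by
    refine ⟨max R₀ 0, le_max_right _ _, fun z hz => ?_⟩
    obtain ⟨w, hw1, hw2⟩ := hR₀ z hz
    refine ⟨fun i => w i, ?_, ?_⟩
    · rw [pi_norm_le_iff_of_nonneg (le_max_right _ _)]
      exact fun i => (hw1 i i.2).trans (le_max_left _ _)
    · rw [← hw2]
      refine mv_congr ψ (fun i hi => ?_) p
      simp [ex, hi]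
  have hst : ∀ w w' : W k, act ψ w p = act ψ w' p → act ψ (w - w') p = p := by
    intro w w' h
    rw [sub_eq_neg_add, act_add hc hadd _ _ hpL, h, act_neg hc h0 hadd _ hpL]
  have hsm : ∀ (q : ℕ) (w : W k), act ψ w p = p → act ψ ((q : ℝ) • w) p = p := by
    intro q w hw
    induction q with
    | zero => simp [act_zero h0]
    | succ q ih =>
      rw [Nat.cast_succ, add_smul, one_smul, act_add hc hadd _ _ hpL, hw, ih]
  have hFA : ∀ w : W k, F^[m] (act ψ w p) = act ψ (A w) p := fun w => by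
    rw [hc.aff _ _ hpL, hFp]
  -- rational points are periodic
  have hrat : ∀ (q : ℕ) (v : W k), 1 ≤ q → act ψ ((q : ℝ) • v) p = p → act ψ v p ∈ Per F := by
    intro q v hq hv
    have hq0 : (0 : ℝ) < q := by exact_mod_cast hq
    set Q : Set N := {z | ∃ v : W k, act ψ ((q : ℝ) • v) p = p ∧ act ψ v p = z} with hQ
    have hQf : Q.Finite := by
      have h1 : Q ⊆ (fun w : W k => act ψ ((q : ℝ)⁻¹ • w) p) ''
          {w : W k | ‖w‖ ≤ q * R ∧ act ψ w p = p} := by
        rintro z ⟨v, hv1, hv2⟩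
        obtain ⟨v', hv', hv'p⟩ := hR z (by rw [← hv2]; exact act_mem hc _ hpL)
        have h2 := hsm q _ (hst v' v (hv'p.trans hv2.symm))
        refine ⟨(q : ℝ) • v', ⟨?_, ?_⟩, ?_⟩
        · rw [norm_smul, Real.norm_of_nonneg hq0.le]
          exact mul_le_mul_of_nonneg_left hv' hq0.le
        · have h3 : (q : ℝ) • v' = (q : ℝ) • (v' - v) + (q : ℝ) • v := by
            rw [smul_sub]; abel
          rw [h3, act_add hc hadd _ _ hpL, hv1, h2]
        · show act ψ ((q : ℝ)⁻¹ • ((q : ℝ) • v')) p = z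
          rw [smul_smul, inv_mul_cancel₀ hq0.ne', one_smul, hv'p]
      exact ((hfin (q * R)).image _).subset h1
    have hQm : ∀ z ∈ Q, F^[m] z ∈ Q := by
      rintro z ⟨v, hv1, rfl⟩
      refine ⟨A v, ?_, (hFA v).symm⟩
      rw [← map_smul, ← hFA, hv1, hFp]
    have hit : ∀ i : ℕ, (F^[m])^[i] (act ψ v p) ∈ Q := by
      intro i
      induction i with
      | zero => exact ⟨v, hv, rfl⟩
      | succ i ih =>
        rw [Function.iterate_succ_apply']
        exact hQm _ ih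
    have : Finite Q := hQf
    obtain ⟨i, j, hij, he⟩ := Finite.exists_ne_map_eq_of_infinite
      (fun i : ℕ => (⟨(F^[m])^[i] (act ψ v p), hit i⟩ : Q))
    have he' : (F^[m])^[i] (act ψ v p) = (F^[m])^[j] (act ψ v p) := congrArg Subtype.val he
    have hinj : ∀ l : ℕ, Function.Injective ((F^[m])^[l]) := fun l =>
      (F.injective.iterate m).iterate l
    have hfix : ∀ i j : ℕ, i < j → (F^[m])^[i] (act ψ v p) = (F^[m])^[j] (act ψ v p) →
        act ψ v p ∈ Per F := by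
      intro i j hlt h
      obtain ⟨d, rfl⟩ : ∃ d, j = i + (d + 1) := ⟨j - i - 1, by omega⟩
      rw [Function.iterate_add_apply] at h
      have h1 := hinj i h
      refine ⟨m * (d + 1), Nat.mul_pos hm (Nat.succ_pos d), ?_⟩
      rw [Function.iterate_mul]
      exact h1.symm
    rcases lt_or_gt_of_ne hij with h | h
    · exact hfix i j h he'
    · exact hfix j i h he'.symm
  -- density
  intro y hy
  obtain ⟨w, -, hw⟩ := hR y hy
  choose s hs1 hs2 using fun q : ℕ => hR (act ψ ((q : ℝ) • w) p) (act_mem hc _ hpL)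
  have hlim : Tendsto (fun q : ℕ => act ψ (w - (q : ℝ)⁻¹ • s q) p) atTop (𝓝 y) := by
    rw [← hw]
    refine (hcw.tendsto w).comp ?_
    have h1 : Tendsto (fun q : ℕ => (q : ℝ)⁻¹ • s q) atTop (𝓝 0) := by
      refine squeeze_zero_norm (a := fun q : ℕ => (q : ℝ)⁻¹ * R) (fun q => ?_) ?_
      · rw [norm_smul, norm_inv, Real.norm_of_nonneg (Nat.cast_nonneg q)]
        exact mul_le_mul_of_nonneg_left (hs1 q) (by positivity)
      · have := (tendsto_inv_atTop_nhds_zero_nat (𝕜 := ℝ)).mul_const R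
        simpa using this
    simpa using tendsto_const_nhds.sub h1
  refine mem_closure_of_tendsto hlim ?_
  filter_upwards [eventually_ge_atTop 1] with q hq
  have hq0 : (q : ℝ) ≠ 0 := by exact_mod_cast (by omega : q ≠ 0)
  refine hrat q _ hq ?_
  rw [smul_sub, smul_smul, mul_inv_cancel₀ hq0, one_smul]
  exact hst _ _ (hs2 q).symm

/-- **Affine tori of `Ω`-stable diffeomorphisms are hyperbolic.** -/
theorem torus_main (hr : 1 ≤ r) {F : DiffM n N r} (hF : OmegaStable n N r F)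
    {k m : ℕ} (hm : 1 ≤ m) {ψ : ℕ → ℝ → N → N} (hψ : ∀ i, IsFlow n N (ψ i)) {L : Set N}
    (hL : IsCompact L) (hLn : L.Nonempty)
    (hdis : ∀ i, 1 ≤ i → i < m → Disjoint (F^[i] '' L) L)
    {A : W k →ₗ[ℝ] W k} (hc : Aff k ψ A F^[m] L)
    (htr : ∀ y ∈ L, ∀ z ∈ L, ∃ w : W k, act ψ w y = z)
    (hfree : ∀ w : W k, w ≠ 0 → ∀ y ∈ L, ∃ t : ℝ, act ψ (t • w) y ≠ y) :
    (∀ μ : ℂ, ((LinearMap.charpoly A).map (algebraMap ℝ ℂ)).IsRoot μ → ‖μ‖ ≠ 1) ∧
      L ⊆ closure (Per F) := by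
  obtain ⟨p, hpL, hFp⟩ := exists_fixed hr hF hm hψ hL hLn hdis hc htr hfree
  refine ⟨fun μ hμ => hyp_at hr hF hm hψ hc hpL hFp (fun w hw => hfree w hw p hpL) hμ, ?_⟩
  obtain ⟨-, hyp⟩ := Pool.Agent.Y504.CO.Gen.stable_hyp hr hF p ⟨m, hm, hFp⟩
  have hχ : chartAt (V n) p ∈ IsManifold.maximalAtlas (𝓡 n) ∞ N :=
    IsManifold.chart_mem_maximalAtlas p
  obtain ⟨D, hD, -⟩ := hyp m hm hFp _ hχ (mem_chart_source _ p)
  obtain ⟨J, hJ, -, hJi⟩ := deriv_at hψ hc hpL hFp (fun w hw => hfree w hw p hpL) hχ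
    (mem_chart_source _ p) hD
  exact dense_per hm hψ hL hc htr hpL hFp (stab_finite hψ hc hpL hJ hJi)

end Pool.Agent.X183.AT
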