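import Pool.Agent.H66.L.T64922ed1.X183.AT.Act

/-!
# Distal affine tori
-/

set_option autoImplicit false
set_option linter.unusedSectionVars false

open scoped Manifold ContDiff Topology
open Filter Set Metric

universe u

namespace Pool.Agent.X183.AT

open Pool.Agent.H718R2.G Pool.Agent.TH290.CL Pool.Agent.TH80.CLX Pool.Agent.TH80.OMS
open Pool.Agent.X183.QP Pool.Agent.X183.PC
open Pool.Agent.Y504.CO (Rec IsHyperbolicPer)
open Pool.Agent.Y318.MN (CritInv IsCrit)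

variable {n : ℕ} {N : Type u} [TopologicalSpace N] [T2Space N] [CompactSpace N]
  [ChartedSpace (V n) N] [IsManifold (𝓡 n) ∞ N]

/-- **No distal affine tori.** -/
theorem no_distal {r : ℕ∞} (hr : 1 ≤ r) {F : DiffM n N r} (hF : OmegaStable n N r F) {L : Set N}
    (h : IsDistalTorus n N F L) : False := by
  obtain ⟨k, m, q, ψ, A, hT, ⟨x, hx, y, hy, hxy⟩, hq, j, hj⟩ := h
  obtain ⟨w, hw⟩ := hT.orbit x hx y hy
  have h1 := unip_dir hr hF hT.pos hT.flow hT.compact hT.disj hT.aff hT.orbit hq j w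
    (by rw [hj]; rfl) 1 x hx
  rw [one_smul, hw] at h1
  exact hxy h1.symm

/-- **Limits of diffeomorphisms whose recurrence is carried by closed curves and distal tori.** -/
theorem limit_distal {r : ℕ∞} (hr : 1 ≤ r) {F : DiffM n N r} (hF : OmegaStable n N r F)
    (hcl : ∀ U : Set (DiffM n N r), IsOpen[strongTop n N r] U → F ∈ U →
      ∃ G ∈ U, DistalRec n N r G) :
    FiniteNoCycle F ∧ ∀ p ∈ Omega F, IsHyperbolicPer n F p := by
  obtain ⟨U₀, hU₀, hFU₀, hconj⟩ := id hF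
  refine limit_main hr hF fun U hU hFU => ?_
  obtain ⟨G, ⟨hGU, hGU₀⟩, h, hh, hm, hR⟩ := hcl (U ∩ U₀)
    (@IsOpen.inter _ (strongTop n N r) _ _ hU hU₀) ⟨hFU, hFU₀⟩
  have hGF : OmegaConj G F := omegaConj_symm F.continuous (hconj G hGU₀)
  have hGs : OmegaStable n N r G :=
    ⟨U₀, hU₀, hGU₀, fun G' hG' => omegaConj_trans hGF (hconj G' hG')⟩
  refine ⟨G, hGU, h, hh, hm, hR.mono ?_⟩
  rintro x ⟨hx, hx'⟩
  refine ⟨hx, ?_⟩
  rintro (h1 | ⟨L, hL, -⟩)
  · exact hx' h1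
  · exact no_distal hr hGs hL

end Pool.Agent.X183.AT
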